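import Pool.Agent.R288.AS.Final
import Pool.Agent.R288.AS.Gauss

/-! MP_bb898f_an: the set of Hausdorff dimensions of asymptotic sets of the Gauss map is
`[0, 1/2]`. -/

namespace Pool.Agent.Results.MP_bb898f_an.GaussImage
open Set MeasureTheory Filter Topology Pool.Agent.R288.AS
open scoped ENNReal

/-- The Gauss map: `0` is sent to `0` and `x ≠ 0` to `1/x - ⌊1/x⌋`. -/
noncomputable def gaussMap (x : ℝ) : ℝ := if x = 0 then 0 else 1 / x - ⌊1 / x⌋

/-- The image of `x ↦ dim_H AS(x)` on `[0,1)` is exactly `[0, 1/2]`. -/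
theorem result :
    {d : ℝ≥0∞ | ∃ x ∈ Ico (0:ℝ) 1,
      dimH {y : ℝ | y ∈ Ico (0:ℝ) 1 ∧
        Tendsto (fun n : ℕ => |gaussMap^[n] x - gaussMap^[n] y|) atTop (𝓝 0)} = d} =
      Icc 0 (1/2) :=
  image_eq gauss_isSys gauss_isMeas

end Pool.Agent.Results.MP_bb898f_an.GaussImage
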